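import Pool.Agent.N949.AO.Def

/-!
# Project AO2, TG: switches from local rules
-/

set_option autoImplicit false

namespace Pool.Agent.N97.AO

open TH966.AK Finset
open Pool.Agent.N949.AO
open scoped Classical

variable {A : P → P → Prop}

/-- other windows without common points survive, in both directions -/
theorem keep_iff {U U' V V' w : List P} (h : Pair A U U') (hw : Walk A w) (hf : Free U U' w)
    (hV : V ≠ []) (hd : ∀ x ∈ U ++ U', x ∉ V ++ V') :
    Free V V' (Rule.rep w U U') ↔ Free V V' w := by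
  obtain ⟨L, R, h1, h2, -, -, -⟩ := Rule.rep_all h hw hf
  rw [h2]
  constructor
  · intro h3
    rw [h1]
    refine keep h.symm hV h3 fun x hx => hd x ?_
    rw [List.mem_append] at hx ⊢
    exact hx.symm
  · intro h3
    rw [h1] at h3
    exact keep h hV h3 hd

/-- the window and its replacement are not both free -/
theorem not_both {U U' w : List P} (h : Pair A U U') (hl : U.length < U'.length)
    (h1 : Free U U' w) (h2 : Free U' U w) : False := by
  obtain ⟨⟨p, r, X, X', e1, e2, -, h4⟩, -⟩ := h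
  have hX : X' ≠ [] := by
    rintro rfl
    rw [e1, e2] at hl
    simp at hl
  obtain ⟨x, Y, hx⟩ := List.exists_cons_of_ne_nil hX
  have hxX : x ∈ X' := by rw [hx]; simp
  have hxU' : x ∈ U' := by rw [e2]; simp [hxX]
  exact h1.2 x hxU' (h4 x hxX) (h2.1.subset hxU')

theorem two_le {U U' : List P} (h : Pair A U U') : 2 ≤ U.length := by
  obtain ⟨⟨p, r, X, X', e1, -⟩, -⟩ := h
  rw [e1]
  simp

theorem mem_Sl {L : Finset (List P × List P)} {w : List P} {q : List P × List P} :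
    q ∈ Sl L w ↔ q ∈ L ∧ (Free q.1 q.2 w ∨ Free q.2 q.1 w) := by
  unfold Sl
  rw [mem_filter]

theorem mem_Oc {L : Finset (List P × List P)} {w : List P} {q : List P × List P} :
    q ∈ Oc L w ↔ q ∈ L ∧ Free q.2 q.1 w := by
  unfold Oc
  rw [mem_filter]

/-- the other switches after turning `q` on or off -/
theorem other {Z : Rule A} {L : Finset (List P × List P)} (hL : CF Z L) {w : List P}
    {q q' : List P × List P} (hq : q ∈ L) (hq' : q' ∈ L) (hne : q' ≠ q) (hw : Walk A w)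
    (h : Free q.1 q.2 w) :
    (Free q'.1 q'.2 (Rule.rep w q.1 q.2) ↔ Free q'.1 q'.2 w) ∧
      (Free q'.2 q'.1 (Rule.rep w q.1 q.2) ↔ Free q'.2 q'.1 w) := by
  have hd : ∀ x ∈ q.1 ++ q.2, x ∉ q'.1 ++ q'.2 := fun x hx hx' =>
    hL.2 q hq q' hq' hne.symm ⟨x, hx, hx'⟩
  have hp := Z.pair _ _ (hL.1 q hq)
  have hp' := Z.pair _ _ (hL.1 q' hq')
  refine ⟨keep_iff hp hw h (Rule.ne_nil hp') hd, keep_iff hp hw h (Rule.ne_nil hp'.symm) fun x hx hx' => ?_⟩
  refine hd x hx ?_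
  rw [List.mem_append] at hx' ⊢
  exact hx'.symm

/-- the same for the move in the other direction -/
theorem other' {Z : Rule A} {L : Finset (List P × List P)} (hL : CF Z L) {w : List P}
    {q q' : List P × List P} (hq : q ∈ L) (hq' : q' ∈ L) (hne : q' ≠ q) (hw : Walk A w)
    (h : Free q.2 q.1 w) :
    (Free q'.1 q'.2 (Rule.rep w q.2 q.1) ↔ Free q'.1 q'.2 w) ∧
      (Free q'.2 q'.1 (Rule.rep w q.2 q.1) ↔ Free q'.2 q'.1 w) := by
  have hd : ∀ x ∈ q.2 ++ q.1, x ∉ q'.1 ++ q'.2 := fun x hx hx' =>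
    hL.2 q hq q' hq' hne.symm ⟨x, by
      rw [List.mem_append] at hx ⊢
      exact hx.symm, hx'⟩
  have hp := Z.pair _ _ (hL.1 q hq)
  have hp' := Z.pair _ _ (hL.1 q' hq')
  refine ⟨keep_iff hp.symm hw h (Rule.ne_nil hp') hd,
    keep_iff hp.symm hw h (Rule.ne_nil hp'.symm) fun x hx hx' => ?_⟩
  refine hd x hx ?_
  rw [List.mem_append] at hx' ⊢
  exact hx'.symm

theorem tg : S_TG := by
  intro A Z hs L hL p hp
  have hlen : ∀ q ∈ L, q.1.length < q.2.length := by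
    intro q hq
    have := Z.len _ _ (hL.1 q hq)
    omega
  have hsw : ∀ (w : List P) (q : List P × List P), q ∈ Sl L w → q ∉ Oc L w →
      q ∈ L ∧ Free q.1 q.2 w := by
    intro w q h1 h2
    rw [mem_Sl] at h1
    rw [mem_Oc] at h2
    refine ⟨h1.1, ?_⟩
    rcases h1.2 with h3 | h3
    · exact h3
    · exact absurd ⟨h1.1, h3⟩ h2
  refine ⟨?_, ?_, ?_, ?_, ?_, ?_, ?_, ?_, ?_⟩
  · intro n w _ q hq
    rw [mem_Oc] at hq
    rw [mem_Sl]
    exact ⟨hq.1, Or.inr hq.2⟩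
  · intro n w hw q h1 h2
    obtain ⟨hq, hf⟩ := hsw w q h1 h2
    simp only [mem_filter] at hw ⊢
    have hwK := Z.mem_K.1 hw.1
    obtain ⟨L1, R1, e1, e2, e3, e4, e5⟩ := Rule.rep_all (Z.pair _ _ (hL.1 q hq)) hwK.2 hf
    refine ⟨?_, ?_⟩
    · rw [Z.mem_K, e2]
      refine ⟨?_, e3⟩
      have hl := Z.len _ _ (hL.1 q hq)
      have h6 := hwK.1
      rw [e1] at h6
      simp only [List.length_append] at h6 ⊢
      omega
    · rw [hp w q hwK.2 (hL.1 q hq) hf]
      exact hw.2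
  · intro n w hw q h1 h2
    obtain ⟨hq, hf⟩ := hsw w q h1 h2
    have hwK := Z.mem_K.1 (mem_filter.1 hw).1
    obtain ⟨L1, R1, e1, e2, e3, e4, e5⟩ := Rule.rep_all (Z.pair _ _ (hL.1 q hq)) hwK.2 hf
    ext q'
    rw [mem_Sl, mem_Sl]
    refine and_congr_right fun hq' => ?_
    by_cases hne : q' = q
    · subst hne
      refine ⟨fun _ => Or.inl hf, fun _ => Or.inr ?_⟩
      show Free q'.2 q'.1 (Rule.rep w q'.1 q'.2)
      rw [e2]
      exact e4
    · have ho := other hL hq hq' hne hwK.2 hf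
      show (Free q'.1 q'.2 (Rule.rep w q.1 q.2) ∨ Free q'.2 q'.1 (Rule.rep w q.1 q.2)) ↔ _
      rw [ho.1, ho.2]
  · intro n w hw q h1 h2
    obtain ⟨hq, hf⟩ := hsw w q h1 h2
    have hwK := Z.mem_K.1 (mem_filter.1 hw).1
    obtain ⟨L1, R1, e1, e2, e3, e4, e5⟩ := Rule.rep_all (Z.pair _ _ (hL.1 q hq)) hwK.2 hf
    ext q'
    rw [@Finset.mem_insert _ (fun a b => Classical.propDecidable (a = b)), mem_Oc, mem_Oc]
    show (q' ∈ L ∧ Free q'.2 q'.1 (Rule.rep w q.1 q.2)) ↔ _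
    by_cases hne : q' = q
    · subst hne
      rw [e2]
      exact ⟨fun _ => Or.inl rfl, fun _ => ⟨hq, e4⟩⟩
    · constructor
      · rintro ⟨h3, h4⟩
        exact Or.inr ⟨h3, (other hL hq h3 hne hwK.2 hf).2.1 h4⟩
      · rintro (h3 | ⟨h3, h4⟩)
        · exact absurd h3 hne
        · exact ⟨h3, (other hL hq h3 hne hwK.2 hf).2.2 h4⟩
  · intro n w hw q h1 h2
    obtain ⟨hq, hf⟩ := hsw w q h1 h2
    have hwK := Z.mem_K.1 (mem_filter.1 hw).1
    obtain ⟨L1, R1, e1, e2, e3, e4, e5⟩ := Rule.rep_all (Z.pair _ _ (hL.1 q hq)) hwK.2 hf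
    show Rule.rep (Rule.rep w q.1 q.2) q.2 q.1 = w
    rw [e2]
    exact e5
  · intro n w hw q h1
    obtain ⟨hq, hf⟩ := mem_Oc.1 h1
    simp only [mem_filter] at hw ⊢
    have hwK := Z.mem_K.1 hw.1
    have hPr := Z.pair _ _ (hL.1 q hq)
    obtain ⟨L1, R1, e1, e2, e3, e4, e5⟩ := Rule.rep_all hPr.symm hwK.2 hf
    have hl := Z.len _ _ (hL.1 q hq)
    have h6 := hwK.1
    have h7 := two_le hPr
    rw [e1] at h6
    simp only [List.length_append] at h6
    refine ⟨n - Z.s, by omega, ?_, ?_⟩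
    · rw [Z.mem_K, e2]
      refine ⟨?_, e3⟩
      simp only [List.length_append]
      omega
    · have h8 := hp (L1 ++ q.1 ++ R1) q e3 (hL.1 q hq) e4
      rw [e5] at h8
      rw [e2, ← h8]
      exact hw.2
  · intro n w hw q h1
    obtain ⟨hq, hf⟩ := mem_Oc.1 h1
    have hwK := Z.mem_K.1 (mem_filter.1 hw).1
    obtain ⟨L1, R1, e1, e2, e3, e4, e5⟩ := Rule.rep_all (Z.pair _ _ (hL.1 q hq)).symm hwK.2 hf
    ext q'
    rw [mem_Sl, mem_Sl]
    refine and_congr_right fun hq' => ?_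
    by_cases hne : q' = q
    · subst hne
      refine ⟨fun _ => Or.inr hf, fun _ => Or.inl ?_⟩
      show Free q'.1 q'.2 (Rule.rep w q'.2 q'.1)
      rw [e2]
      exact e4
    · have ho := other' hL hq hq' hne hwK.2 hf
      show (Free q'.1 q'.2 (Rule.rep w q.2 q.1) ∨ Free q'.2 q'.1 (Rule.rep w q.2 q.1)) ↔ _
      rw [ho.1, ho.2]
  · intro n w hw q h1
    obtain ⟨hq, hf⟩ := mem_Oc.1 h1
    have hwK := Z.mem_K.1 (mem_filter.1 hw).1
    have hPr := Z.pair _ _ (hL.1 q hq)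
    obtain ⟨L1, R1, e1, e2, e3, e4, e5⟩ := Rule.rep_all hPr.symm hwK.2 hf
    ext q'
    rw [@Finset.mem_erase _ (fun a b => Classical.propDecidable (a = b)), mem_Oc, mem_Oc]
    show (q' ∈ L ∧ Free q'.2 q'.1 (Rule.rep w q.2 q.1)) ↔ _
    by_cases hne : q' = q
    · subst hne
      constructor
      · rintro ⟨-, h3⟩
        rw [e2] at h3
        exact (not_both hPr (hlen q' hq) e4 h3).elim
      · rintro ⟨h3, -⟩
        exact absurd rfl h3
    · constructor
      · rintro ⟨h3, h4⟩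
        exact ⟨hne, h3, (other' hL hq h3 hne hwK.2 hf).2.1 h4⟩
      · rintro ⟨-, h3, h4⟩
        exact ⟨h3, (other' hL hq h3 hne hwK.2 hf).2.2 h4⟩
  · intro n w hw q h1
    obtain ⟨hq, hf⟩ := mem_Oc.1 h1
    have hwK := Z.mem_K.1 (mem_filter.1 hw).1
    obtain ⟨L1, R1, e1, e2, e3, e4, e5⟩ := Rule.rep_all (Z.pair _ _ (hL.1 q hq)).symm hwK.2 hf
    show Rule.rep (Rule.rep w q.2 q.1) q.1 q.2 = w
    rw [e2]
    exact e5

end Pool.Agent.N97.AO
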